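import Pool.Agent.TH317.CC.Arr

/-!
# IntZero from a planar drawing (job 2751, helper89)
-/

set_option autoImplicit false
set_option linter.unusedVariables false

universe u v w

namespace Pool.Agent.TH317.CC

open Filter Topology

namespace I4h89

/-! ### Lists and walks -/

theorem lsum_eq {D : Type*} [Inhabited D] (f : D → ℝ) (l : List D) :
    (l.map f).sum = ∑ i ∈ Finset.range l.length, f (l.getD i default) := by
  induction l with
  | nil => simp
  | cons a l ih =>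
    rw [List.map_cons, List.sum_cons, List.length_cons, Finset.sum_range_succ', ih, add_comm]
    simp

section
variable {D V Λ : Type*} [LinearOrder Λ] [Inhabited D] {G : Rib D V Λ}

theorem walk_first {y y' : V} {l : List D} (h : Walk G y y' l) (hl : 0 < l.length) :
    G.tl (l.getD 0 default) = y := by
  cases l with
  | nil => simp at hl
  | cons a l => exact h.1

theorem walk_step {y y' : V} {l : List D} (h : Walk G y y' l) (k : ℕ) (hk : k + 1 < l.length) :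
    G.hd (l.getD k default) = G.tl (l.getD (k + 1) default) := by
  induction l generalizing y k with
  | nil => simp at hk
  | cons a l ih =>
    obtain ⟨h1, h2⟩ := h
    cases k with
    | zero =>
      have := walk_first h2 (by simpa using hk)
      simpa using this.symm
    | succ k =>
      have := ih h2 k (by simpa using hk)
      simpa using this

theorem walk_last {y y' : V} {l : List D} (h : Walk G y y' l) (hl : 0 < l.length) :
    G.hd (l.getD (l.length - 1) default) = y' := by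
  induction l generalizing y with
  | nil => simp at hl
  | cons a l ih =>
    obtain ⟨h1, h2⟩ := h
    cases l with
    | nil => simpa [Walk] using h2
    | cons b l =>
      have := ih h2 (by simp)
      simpa using this

end

/-- cyclic shift of a sum -/
theorem sum_prev (m : ℕ) (f : ℕ → ℝ) :
    ∑ r ∈ Finset.range m, f (if r = 0 then m - 1 else r - 1) = ∑ r ∈ Finset.range m, f r := by
  cases m with
  | zero => simp
  | succ m =>
    rw [Finset.sum_range_succ', Finset.sum_range_succ]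
    simp

/-! ### Clamping -/

/-- clamp -/
noncomputable def cl (t : ℝ) : ℝ := max 0 (min 1 t)

theorem cl_cont : Continuous cl := by unfold cl; fun_prop

theorem cl_mem (t : ℝ) : cl t ∈ Set.Icc (0 : ℝ) 1 := by
  unfold cl
  exact ⟨le_max_left _ _, max_le zero_le_one (min_le_left _ _)⟩

theorem cl_eq {t : ℝ} (h : t ∈ Set.Icc (0 : ℝ) 1) : cl t = t := by
  unfold cl
  rw [min_eq_right h.2, max_eq_right h.1]

/-! ### Integrals -/

/-- integrand -/
noncomputable def Fk (ψ : ℝ → ℝ) (a a' b b' : ℝ → ℝ × ℝ) (s t : ℝ) : ℝ :=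
  ψ ((a s).1 - (b t).1) * ψ ((a s).2 - (b t).2) * det2 (a' s) (b' t)

theorem Fk_cont {ψ : ℝ → ℝ} {a a' b b' : ℝ → ℝ × ℝ} (hψ : Continuous ψ)
    (ha : Continuous a) (ha' : Continuous a') (hb : Continuous b) (hb' : Continuous b') :
    Continuous (Function.uncurry (Fk ψ a a' b b')) := by
  unfold Fk det2
  simp only [Function.uncurry_def]
  fun_prop

theorem det2_neg_left (A B : ℝ × ℝ) : det2 (-A) B = - det2 A B := by
  unfold det2
  simp only [Prod.fst_neg, Prod.snd_neg]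
  ring

theorem det2_neg_right (A B : ℝ × ℝ) : det2 A (-B) = - det2 A B := by
  unfold det2
  simp only [Prod.fst_neg, Prod.snd_neg]
  ring

theorem det2_swap (A B : ℝ × ℝ) : det2 B A = - det2 A B := by
  unfold det2
  ring

theorem Ipsi_split {ψ : ℝ → ℝ} {a a' b b' : ℝ → ℝ × ℝ} (hψ : Continuous ψ)
    (ha : Continuous a) (ha' : Continuous a') (hb : Continuous b) (hb' : Continuous b') :
    Ipsi ψ a a' b b' = Ihalf ψ a a' b b'
      - Ihalf ψ (fun s => a (1 - s)) (fun s => - a' (1 - s)) b b'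
      - Ihalf ψ a a' (fun t => b (1 - t)) (fun t => - b' (1 - t))
      + Ihalf ψ (fun s => a (1 - s)) (fun s => - a' (1 - s))
          (fun t => b (1 - t)) (fun t => - b' (1 - t)) := by
  have hF := Fk_cont hψ ha ha' hb hb'
  set F := Fk ψ a a' b b' with hFdef
  have hFs : ∀ s, Continuous (F s) := fun s => hF.comp (Continuous.prodMk_right s)
  have hF2 : Continuous (Function.uncurry (fun s t => F s (1 - t))) :=
    hF.comp (by fun_prop : Continuous fun p : ℝ × ℝ => (p.1, 1 - p.2))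
  let G1 : ℝ → ℝ := fun s => ∫ t in (0 : ℝ)..(1 / 2), F s t
  let G2 : ℝ → ℝ := fun s => ∫ t in (0 : ℝ)..(1 / 2), F s (1 - t)
  have hG1 : Continuous G1 :=
    intervalIntegral.continuous_parametric_intervalIntegral_of_continuous' hF 0 (1 / 2)
  have hG2 : Continuous G2 :=
    intervalIntegral.continuous_parametric_intervalIntegral_of_continuous' hF2 0 (1 / 2)
  have hG : Continuous (fun s => G1 s + G2 s) := hG1.add hG2
  have e0 : Ipsi ψ a a' b b' = ∫ s in (0 : ℝ)..1, (G1 s + G2 s) := by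
    unfold Ipsi
    apply intervalIntegral.integral_congr
    intro s _
    change (∫ t in (0 : ℝ)..1, F s t) = G1 s + G2 s
    rw [← intervalIntegral.integral_add_adjacent_intervals (b := 1 / 2)
      ((hFs s).intervalIntegrable _ _) ((hFs s).intervalIntegrable _ _)]
    congr 1
    change _ = ∫ t in (0 : ℝ)..(1 / 2), F s (1 - t)
    rw [intervalIntegral.integral_comp_sub_left (fun t => F s t) 1]
    norm_num
  have e1 : (∫ s in (0 : ℝ)..1, (G1 s + G2 s)) = (∫ s in (0 : ℝ)..(1 / 2), (G1 s + G2 s))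
      + ∫ s in (0 : ℝ)..(1 / 2), (G1 (1 - s) + G2 (1 - s)) := by
    rw [← intervalIntegral.integral_add_adjacent_intervals (b := 1 / 2)
      (hG.intervalIntegrable _ _) (hG.intervalIntegrable _ _)]
    congr 1
    rw [intervalIntegral.integral_comp_sub_left (fun s => G1 s + G2 s) 1]
    norm_num
  have hG1r : Continuous (fun s => G1 (1 - s)) := hG1.comp (by fun_prop)
  have hG2r : Continuous (fun s => G2 (1 - s)) := hG2.comp (by fun_prop)
  have e2 : (∫ s in (0 : ℝ)..(1 / 2), (G1 s + G2 s)) = (∫ s in (0 : ℝ)..(1 / 2), G1 s) +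
      ∫ s in (0 : ℝ)..(1 / 2), G2 s :=
    intervalIntegral.integral_add (hG1.intervalIntegrable _ _) (hG2.intervalIntegrable _ _)
  have e3 : (∫ s in (0 : ℝ)..(1 / 2), (G1 (1 - s) + G2 (1 - s))) =
      (∫ s in (0 : ℝ)..(1 / 2), G1 (1 - s)) + ∫ s in (0 : ℝ)..(1 / 2), G2 (1 - s) :=
    intervalIntegral.integral_add (hG1r.intervalIntegrable _ _) (hG2r.intervalIntegrable _ _)
  have i1 : Ihalf ψ a a' b b' = ∫ s in (0 : ℝ)..(1 / 2), G1 s := rfl
  have i2 : Ihalf ψ (fun s => a (1 - s)) (fun s => - a' (1 - s)) b b' =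
      - ∫ s in (0 : ℝ)..(1 / 2), G1 (1 - s) := by
    rw [← intervalIntegral.integral_neg]
    unfold Ihalf
    apply intervalIntegral.integral_congr
    intro s _
    change _ = - ∫ t in (0 : ℝ)..(1 / 2), F (1 - s) t
    rw [← intervalIntegral.integral_neg]
    apply intervalIntegral.integral_congr
    intro t _
    simp only [hFdef, Fk, det2_neg_left]
    ring
  have i3 : Ihalf ψ a a' (fun t => b (1 - t)) (fun t => - b' (1 - t)) =
      - ∫ s in (0 : ℝ)..(1 / 2), G2 s := by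
    rw [← intervalIntegral.integral_neg]
    unfold Ihalf
    apply intervalIntegral.integral_congr
    intro s _
    change _ = - ∫ t in (0 : ℝ)..(1 / 2), F s (1 - t)
    rw [← intervalIntegral.integral_neg]
    apply intervalIntegral.integral_congr
    intro t _
    simp only [hFdef, Fk, det2_neg_right]
    ring
  have i4 : Ihalf ψ (fun s => a (1 - s)) (fun s => - a' (1 - s))
      (fun t => b (1 - t)) (fun t => - b' (1 - t)) =
      ∫ s in (0 : ℝ)..(1 / 2), G2 (1 - s) := by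
    unfold Ihalf
    apply intervalIntegral.integral_congr
    intro s _
    change _ = ∫ t in (0 : ℝ)..(1 / 2), F (1 - s) (1 - t)
    apply intervalIntegral.integral_congr
    intro t _
    simp only [hFdef, Fk, det2_neg_right, det2_neg_left]
    ring
  rw [e0, e1, e2, e3, i1, i2, i3, i4]
  ring

theorem Ihalf_swap {ψ : ℝ → ℝ} {a a' b b' : ℝ → ℝ × ℝ} (hψ : Continuous ψ)
    (heven : ∀ x, ψ (-x) = ψ x)
    (ha : Continuous a) (ha' : Continuous a') (hb : Continuous b) (hb' : Continuous b') :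
    Ihalf ψ b b' a a' = - Ihalf ψ a a' b b' := by
  have hF := Fk_cont hψ hb hb' ha ha'
  have h1 : Ihalf ψ b b' a a' = ∫ s in (0 : ℝ)..(1 / 2), ∫ t in (0 : ℝ)..(1 / 2),
      Fk ψ b b' a a' s t := rfl
  have h2 : Ihalf ψ a a' b b' = ∫ s in (0 : ℝ)..(1 / 2), ∫ t in (0 : ℝ)..(1 / 2),
      Fk ψ a a' b b' s t := rfl
  rw [h1, h2, MeasureTheory.intervalIntegral_intervalIntegral_swap]
  · rw [← intervalIntegral.integral_neg]
    apply intervalIntegral.integral_congr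
    intro s _
    simp only []
    rw [← intervalIntegral.integral_neg]
    apply intervalIntegral.integral_congr
    intro t _
    simp only [Fk]
    rw [det2_swap (a' s) (b' t), ← heven ((b t).1 - (a s).1), ← heven ((b t).2 - (a s).2),
      neg_sub, neg_sub]
    ring
  · apply MeasureTheory.IntegrableOn.mono_set (t := Set.uIcc (0 : ℝ) (1 / 2) ×ˢ Set.uIcc (0 : ℝ) (1 / 2))
    · exact hF.continuousOn.integrableOn_compact (isCompact_uIcc.prod isCompact_uIcc)
    · exact Set.prod_mono Set.uIoc_subset_uIcc Set.uIoc_subset_uIcc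

theorem Ipsi_congr {ψ : ℝ → ℝ} {a a' b b' p p' q q' : ℝ → ℝ × ℝ}
    (h1 : ∀ t ∈ Set.Icc (0 : ℝ) 1, a t = p t) (h2 : ∀ t ∈ Set.Icc (0 : ℝ) 1, a' t = p' t)
    (h3 : ∀ t ∈ Set.Icc (0 : ℝ) 1, b t = q t) (h4 : ∀ t ∈ Set.Icc (0 : ℝ) 1, b' t = q' t) :
    Ipsi ψ a a' b b' = Ipsi ψ p p' q q' := by
  unfold Ipsi
  apply intervalIntegral.integral_congr
  intro s hs
  rw [Set.uIcc_of_le zero_le_one] at hs
  apply intervalIntegral.integral_congr
  intro t ht
  rw [Set.uIcc_of_le zero_le_one] at ht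
  simp only [h1 s hs, h2 s hs, h3 t ht, h4 t ht]

theorem Ihalf_congr {ψ : ℝ → ℝ} {a a' b b' p p' q q' : ℝ → ℝ × ℝ}
    (h1 : ∀ t ∈ Set.Icc (0 : ℝ) 1, a t = p t) (h2 : ∀ t ∈ Set.Icc (0 : ℝ) 1, a' t = p' t)
    (h3 : ∀ t ∈ Set.Icc (0 : ℝ) 1, b t = q t) (h4 : ∀ t ∈ Set.Icc (0 : ℝ) 1, b' t = q' t) :
    Ihalf ψ a a' b b' = Ihalf ψ p p' q q' := by
  have hsub : ∀ x ∈ Set.uIcc (0 : ℝ) (1 / 2), x ∈ Set.Icc (0 : ℝ) 1 := by
    intro x hx
    rw [Set.uIcc_of_le (by norm_num)] at hx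
    exact ⟨hx.1, by linarith [hx.2]⟩
  unfold Ihalf
  apply intervalIntegral.integral_congr
  intro s hs
  apply intervalIntegral.integral_congr
  intro t ht
  have hs' := hsub s hs
  have ht' := hsub t ht
  simp only [h1 s hs', h2 s hs', h3 t ht', h4 t ht']

theorem scal_cont {ψ : ℝ → ℝ} (h : Continuous ψ) (ε : ℝ) : Continuous (scal ψ ε) := by
  unfold scal
  exact (h.comp (continuous_id.div_const ε)).div_const ε

theorem scal_even {ψ : ℝ → ℝ} (h : ∀ x, ψ (-x) = ψ x) (ε x : ℝ) :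
    scal ψ ε (-x) = scal ψ ε x := by
  unfold scal
  rw [neg_div, h]

/-! ### Polytopes in open convex sets -/

theorem exists_hull {K B : Set (ℝ × ℝ)} (hK : IsCompact K) (hB : IsOpen B) (hc : Convex ℝ B)
    (hKB : K ⊆ B) : ∃ H : Set (ℝ × ℝ), IsCompact H ∧ Convex ℝ H ∧ K ⊆ H ∧ H ⊆ B := by
  classical
  have h1 : ∀ x : ℝ × ℝ, ∃ u : Finset (ℝ × ℝ), x ∈ K →
      (convexHull ℝ (u : Set (ℝ × ℝ)) ∈ 𝓝 x ∧ convexHull ℝ (u : Set (ℝ × ℝ)) ⊆ B) := by
    intro x
    by_cases hx : x ∈ K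
    · obtain ⟨u, hu1, hu2⟩ := (convex_singleton (𝕜 := ℝ) x).exists_subset_interior_convexHull_finset_of_isCompact
        isCompact_singleton (t := B) (by
          rw [nhdsSet_singleton]
          exact hB.mem_nhds (hKB hx))
      refine ⟨u, fun _ => ⟨?_, hu2⟩⟩
      exact mem_interior_iff_mem_nhds.1 (hu1 rfl)
    · exact ⟨∅, fun h => absurd h hx⟩
  choose u hu using h1
  obtain ⟨t, ht1, ht2⟩ := hK.elim_nhds_subcover
    (fun x => convexHull ℝ (u x : Set (ℝ × ℝ))) (fun x hx => (hu x hx).1)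
  have hfin : (⋃ x ∈ t, (u x : Set (ℝ × ℝ))).Finite :=
    t.finite_toSet.biUnion (fun x _ => (u x).finite_toSet)
  refine ⟨convexHull ℝ (⋃ x ∈ t, (u x : Set (ℝ × ℝ))), hfin.isCompact_convexHull ℝ,
    convex_convexHull ℝ _, ?_, ?_⟩
  · intro z hz
    obtain ⟨x, hx, hzx⟩ := Set.mem_iUnion₂.1 (ht2 hz)
    exact convexHull_mono (Set.subset_biUnion_of_mem (u := fun x => (u x : Set (ℝ × ℝ))) hx) hzx
  · apply convexHull_min _ hc
    apply Set.iUnion₂_subset
    intro x hx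
    exact (subset_convexHull ℝ _).trans (hu x (ht1 x hx)).2

/-! ### Darts -/

section Darts

variable {D : Type v} {V : Type u} {Λ : Type w} [LinearOrder Λ] {G : Rib D V Λ}
  {S : Set V} {B : Set (ℝ × ℝ)} {P : V → ℝ × ℝ} {c c' : D → ℝ → ℝ × ℝ} {code : D → ℕ}

theorem touch_inv {d : D} (h : G.touch S d) : G.touch S (G.inv d) := by
  rcases h with h | h
  · right
    unfold Rib.hd
    rwa [G.inv_inv]
  · left
    exact h

open Classical in
/-- limit values -/
noncomputable def k0 (ψ : ℝ → ℝ) (G : Rib D V Λ) (c' : D → ℝ → ℝ × ℝ) (e d : D) : ℝ :=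
  if G.tl e = G.tl d ∧ e ≠ d then kap ψ (c' e 0) (c' d 0) else 0

theorem k0_of_tl_ne {ψ : ℝ → ℝ} {e d : D} (h : G.tl e ≠ G.tl d) : k0 ψ G c' e d = 0 := by
  unfold k0
  rw [if_neg (fun hh => h hh.1)]

theorem k0_self {ψ : ℝ → ℝ} {e : D} : k0 ψ G c' e e = 0 := by
  unfold k0
  rw [if_neg (fun hh => hh.2 rfl)]

/-- the alternating sum of the limit values -/
noncomputable def br0 (ψ : ℝ → ℝ) (G : Rib D V Λ) (c' : D → ℝ → ℝ × ℝ) (e d : D) : ℝ :=
  k0 ψ G c' e d - k0 ψ G c' (G.inv e) d - k0 ψ G c' e (G.inv d) + k0 ψ G c' (G.inv e) (G.inv d)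

theorem draw_cont (h : Draw G S B P c c' code) {d : D} (hd : G.touch S d) :
    ContinuousOn (c d) (Set.Icc 0 1) :=
  fun t ht => (h.deriv d hd t ht).continuousWithinAt

theorem draw_contC (h : Draw G S B P c c' code) {d : D} (hd : G.touch S d) :
    Continuous (fun t => c d (cl t)) :=
  (draw_cont h hd).comp_continuous cl_cont cl_mem

theorem draw_contC' (h : Draw G S B P c c' code) {d : D} (hd : G.touch S d) :
    Continuous (fun t => c' d (cl t)) :=
  (h.cderiv d hd).comp_continuous cl_cont cl_mem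

theorem one_sub_mem {t : ℝ} (ht : t ∈ Set.Icc (0 : ℝ) 1) : 1 - t ∈ Set.Icc (0 : ℝ) 1 :=
  ⟨by linarith [ht.2], by linarith [ht.1]⟩

theorem Ipsi_dec (h : Draw G S B P c c' code) {ψ : ℝ → ℝ} (hψ : Continuous ψ) {e d : D}
    (he : G.touch S e) (hd : G.touch S d) :
    Ipsi ψ (c e) (c' e) (c d) (c' d) = Ihalf ψ (c e) (c' e) (c d) (c' d)
      - Ihalf ψ (c (G.inv e)) (c' (G.inv e)) (c d) (c' d)
      - Ihalf ψ (c e) (c' e) (c (G.inv d)) (c' (G.inv d))
      + Ihalf ψ (c (G.inv e)) (c' (G.inv e)) (c (G.inv d)) (c' (G.inv d)) := by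
  have e1 : Ipsi ψ (c e) (c' e) (c d) (c' d) = Ipsi ψ (fun t => c e (cl t)) (fun t => c' e (cl t))
      (fun t => c d (cl t)) (fun t => c' d (cl t)) :=
    Ipsi_congr (fun t ht => by rw [cl_eq ht]) (fun t ht => by rw [cl_eq ht])
      (fun t ht => by rw [cl_eq ht]) (fun t ht => by rw [cl_eq ht])
  rw [e1, Ipsi_split hψ (draw_contC h he) (draw_contC' h he) (draw_contC h hd)
    (draw_contC' h hd)]
  have r1 : ∀ x, G.touch S x → ∀ t ∈ Set.Icc (0 : ℝ) 1, c x (cl (1 - t)) = c (G.inv x) t := by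
    intro x hx t ht
    rw [cl_eq (one_sub_mem ht), h.rev x hx t ht]
  have r2 : ∀ x, G.touch S x → ∀ t ∈ Set.Icc (0 : ℝ) 1,
      - c' x (cl (1 - t)) = c' (G.inv x) t := by
    intro x hx t ht
    rw [cl_eq (one_sub_mem ht), h.rev' x hx t ht]
  have r3 : ∀ x, ∀ t ∈ Set.Icc (0 : ℝ) 1, c x (cl t) = c x t := by
    intro x t ht
    rw [cl_eq ht]
  have r4 : ∀ x, ∀ t ∈ Set.Icc (0 : ℝ) 1, c' x (cl t) = c' x t := by
    intro x t ht
    rw [cl_eq ht]
  rw [Ihalf_congr (r3 e) (r4 e) (r3 d) (r4 d),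
    Ihalf_congr (r1 e he) (r2 e he) (r3 d) (r4 d),
    Ihalf_congr (r3 e) (r4 e) (r1 d hd) (r2 d hd),
    Ihalf_congr (r1 e he) (r2 e he) (r1 d hd) (r2 d hd)]

theorem Ihalf_anti (h : Draw G S B P c c' code) {ψ : ℝ → ℝ} (hψ : Continuous ψ)
    (heven : ∀ x, ψ (-x) = ψ x) {e d : D} (he : G.touch S e) (hd : G.touch S d) :
    Ihalf ψ (c d) (c' d) (c e) (c' e) = - Ihalf ψ (c e) (c' e) (c d) (c' d) := by
  have r3 : ∀ x, ∀ t ∈ Set.Icc (0 : ℝ) 1, c x t = c x (cl t) := by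
    intro x t ht
    rw [cl_eq ht]
  have r4 : ∀ x, ∀ t ∈ Set.Icc (0 : ℝ) 1, c' x t = c' x (cl t) := by
    intro x t ht
    rw [cl_eq ht]
  rw [Ihalf_congr (r3 e) (r4 e) (r3 d) (r4 d), Ihalf_congr (r3 d) (r4 d) (r3 e) (r4 e)]
  exact Ihalf_swap hψ heven (draw_contC h he) (draw_contC' h he) (draw_contC h hd)
    (draw_contC' h hd)

theorem Ipsi_self (h : Draw G S B P c c' code) {ψ : ℝ → ℝ} (hψ : Continuous ψ)
    (heven : ∀ x, ψ (-x) = ψ x) {d : D} (hd : G.touch S d) :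
    Ipsi ψ (c d) (c' d) (c d) (c' d) = 0 := by
  rw [Ipsi_dec h hψ hd hd]
  have h1 := Ihalf_anti h hψ heven hd hd
  have h2 := Ihalf_anti h hψ heven hd (touch_inv hd)
  have h3 := Ihalf_anti h hψ heven (touch_inv hd) (touch_inv hd)
  linarith

theorem Ipsi_inv_self (h : Draw G S B P c c' code) {ψ : ℝ → ℝ} (hψ : Continuous ψ)
    (heven : ∀ x, ψ (-x) = ψ x) {d : D} (hd : G.touch S d) :
    Ipsi ψ (c (G.inv d)) (c' (G.inv d)) (c d) (c' d) = 0 := by
  rw [Ipsi_dec h hψ (touch_inv hd) hd, G.inv_inv]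
  have h1 := Ihalf_anti h hψ heven hd hd
  have h2 := Ihalf_anti h hψ heven hd (touch_inv hd)
  have h3 := Ihalf_anti h hψ heven (touch_inv hd) (touch_inv hd)
  linarith

theorem br0_self (ψ : ℝ → ℝ) (d : D) : br0 ψ G c' d d = 0 := by
  unfold br0
  rw [k0_self, k0_self, k0_of_tl_ne (G.noloop d), k0_of_tl_ne (G.noloop d).symm]
  ring

theorem br0_inv_self (ψ : ℝ → ℝ) (d : D) : br0 ψ G c' (G.inv d) d = 0 := by
  unfold br0
  rw [G.inv_inv, k0_self, k0_self, k0_of_tl_ne (G.noloop d), k0_of_tl_ne (G.noloop d).symm]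
  ring

theorem dir4_ne {A B' : ℝ × ℝ} (h : 0 < det2 A B') (p : ℕ) : dir4 A B' p ≠ 0 := by
  have hA : A ≠ 0 := by
    rintro rfl
    simp [det2] at h
  have hB : B' ≠ 0 := by
    rintro rfl
    simp [det2] at h
  rcases p with _ | _ | _ | p
  · exact hA
  · exact hB
  · exact neg_ne_zero.2 hA
  · exact neg_ne_zero.2 hB

theorem dir4_not_smul {A B' : ℝ × ℝ} (h : 0 < det2 A B') {p q : ℕ} (hp : p < 4) (hq : q < 4)
    (hpq : p ≠ q) (μ : ℝ) (hμ : 0 < μ) : dir4 A B' q ≠ μ • dir4 A B' p := by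
  intro hh
  obtain ⟨A1, A2⟩ := A
  obtain ⟨B1, B2⟩ := B'
  unfold det2 at h
  simp only at h
  have h0 := dir4_ne (A := (A1, A2)) (B' := (B1, B2)) h p
  have fin0 : A1 * B2 - A2 * B1 = 0 → False := fun hz => by
    rw [hz] at h
    exact lt_irrefl _ h
  have z : (1 + μ) ≠ 0 := by positivity
  interval_cases p <;> interval_cases q
  all_goals try exact hpq rfl
  all_goals
    simp only [dir4, Prod.neg_mk, Prod.smul_mk, smul_eq_mul, Prod.mk.injEq, ne_eq,
        Prod.mk_eq_zero, not_and, neg_eq_zero] at hh h0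
    obtain ⟨x1, x2⟩ := hh
  · apply fin0
    linear_combination A1 * x2 - A2 * x1
  · exact h0 ((mul_eq_zero.1 (by linarith : (1 + μ) * A1 = 0)).resolve_left z)
      ((mul_eq_zero.1 (by linarith : (1 + μ) * A2 = 0)).resolve_left z)
  · apply fin0
    linear_combination A2 * x1 - A1 * x2
  · apply fin0
    linear_combination B2 * x1 - B1 * x2
  · apply fin0
    linear_combination B1 * x2 - B2 * x1
  · exact h0 ((mul_eq_zero.1 (by linarith : (1 + μ) * B1 = 0)).resolve_left z)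
      ((mul_eq_zero.1 (by linarith : (1 + μ) * B2 = 0)).resolve_left z)
  · exact h0 ((mul_eq_zero.1 (by linarith : (1 + μ) * A1 = 0)).resolve_left z)
      ((mul_eq_zero.1 (by linarith : (1 + μ) * A2 = 0)).resolve_left z)
  · apply fin0
    linear_combination A1 * x2 - A2 * x1
  · apply fin0
    linear_combination A2 * x1 - A1 * x2
  · apply fin0
    linear_combination B2 * x1 - B1 * x2
  · exact h0 ((mul_eq_zero.1 (by linarith : (1 + μ) * B1 = 0)).resolve_left z)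
      ((mul_eq_zero.1 (by linarith : (1 + μ) * B2 = 0)).resolve_left z)
  · apply fin0
    linear_combination B1 * x2 - B2 * x1


theorem code_ne (h : Draw G S B P c c' code) {e d : D} (hed : G.tl e = G.tl d)
    (hd : G.tl d ∈ S) (hne : e ≠ d) : code e ≠ code d := by
  intro hc
  rcases lt_trichotomy (G.pos e) (G.pos d) with h1 | h1 | h1
  · have := (h.code_pos e d hed (hed ▸ hd)).1 h1
    omega
  · exact hne (G.pos_inj h1)
  · have := (h.code_pos d e hed.symm hd).1 h1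
    omega

theorem lim_pair (h : Draw G S B P c c' code)
    (hlim : ∀ (ψ : ℝ → ℝ) (_ : Continuous ψ) (_ : ∀ x, 1 ≤ |x| → ψ x = 0)
      (a a' b b' : ℝ → ℝ × ℝ)
      (_ : ∀ t ∈ Set.Icc (0 : ℝ) (1 / 2), HasDerivWithinAt a (a' t) (Set.Icc 0 (1 / 2)) t)
      (_ : ∀ t ∈ Set.Icc (0 : ℝ) (1 / 2), HasDerivWithinAt b (b' t) (Set.Icc 0 (1 / 2)) t)
      (_ : ContinuousOn a' (Set.Icc 0 (1 / 2))) (_ : ContinuousOn b' (Set.Icc 0 (1 / 2)))
      (_ : a 0 = b 0)
      (_ : ∀ s ∈ Set.Icc (0 : ℝ) (1 / 2), ∀ t ∈ Set.Icc (0 : ℝ) (1 / 2), a s = b t →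
        s = 0 ∧ t = 0)
      (_ : a' 0 ≠ 0) (_ : b' 0 ≠ 0) (_ : ∀ μ : ℝ, 0 < μ → b' 0 ≠ μ • a' 0),
      Tendsto (fun ε => Ihalf (scal ψ ε) a a' b b') (𝓝[>] 0) (𝓝 (kap ψ (a' 0) (b' 0))))
    (hzero : ∀ (ψ : ℝ → ℝ) (_ : Continuous ψ) (_ : ∀ x, 1 ≤ |x| → ψ x = 0)
      (a a' b b' : ℝ → ℝ × ℝ)
      (_ : ContinuousOn a (Set.Icc 0 (1 / 2))) (_ : ContinuousOn b (Set.Icc 0 (1 / 2)))
      (_ : ∀ s ∈ Set.Icc (0 : ℝ) (1 / 2), ∀ t ∈ Set.Icc (0 : ℝ) (1 / 2), a s ≠ b t),
      ∀ᶠ ε in 𝓝[>] (0 : ℝ), Ihalf (scal ψ ε) a a' b b' = 0)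
    {ψ : ℝ → ℝ} (hψ : Continuous ψ) (hsupp : ∀ x, 1 ≤ |x| → ψ x = 0) {e d : D}
    (he : G.touch S e) (hd : G.touch S d) (hdS : G.tl d ∈ S) (hne : e ≠ d)
    (hne' : e ≠ G.inv d) :
    Tendsto (fun ε => Ihalf (scal ψ ε) (c e) (c' e) (c d) (c' d)) (𝓝[>] 0)
      (𝓝 (k0 ψ G c' e d)) := by
  have hsub : Set.Icc (0 : ℝ) (1 / 2) ⊆ Set.Icc (0 : ℝ) 1 := Set.Icc_subset_Icc le_rfl (by norm_num)
  have hdisj : ∀ s ∈ Set.Icc (0 : ℝ) (1 / 2), ∀ t ∈ Set.Icc (0 : ℝ) (1 / 2), c e s = c d t →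
        s = 0 ∧ t = 0 := by
    intro s hs t ht hst
    have h1 : d ≠ G.inv e := by
      intro hh
      apply hne'
      rw [hh, G.inv_inv]
    obtain ⟨h2, h3⟩ := h.disj e d he hd hne.symm h1 s (hsub hs) t (hsub ht) hst
    constructor
    · rcases h2 with h2 | h2
      · exact h2
      · exfalso
        have := hs.2
        linarith
    · rcases h3 with h3 | h3
      · exact h3
      · exfalso
        have := ht.2
        linarith
  by_cases htl : G.tl e = G.tl d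
  · have hk : k0 ψ G c' e d = kap ψ (c' e 0) (c' d 0) := by
      unfold k0
      rw [if_pos ⟨htl, hne⟩]
    rw [hk]
    obtain ⟨A, B', hAB, hdir⟩ := h.dir (G.tl d) hdS
    obtain ⟨hc1, μ1, hμ1, hm1⟩ := hdir e htl
    obtain ⟨hc2, μ2, hμ2, hm2⟩ := hdir d rfl
    apply hlim ψ hψ hsupp
    · intro t ht
      exact (h.deriv e he t (hsub ht)).mono hsub
    · intro t ht
      exact (h.deriv d hd t (hsub ht)).mono hsub
    · exact (h.cderiv e he).mono hsub
    · exact (h.cderiv d hd).mono hsub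
    · rw [h.start e he, h.start d hd, htl]
    · exact hdisj
    · rw [hm1]
      exact smul_ne_zero hμ1.ne' (dir4_ne hAB _)
    · rw [hm2]
      exact smul_ne_zero hμ2.ne' (dir4_ne hAB _)
    · intro μ hμ hh
      rw [hm1, hm2] at hh
      have h5 : dir4 A B' (code d) = (μ2⁻¹ * (μ * μ1)) • dir4 A B' (code e) := by
        rw [mul_smul, mul_smul, ← hh, smul_smul, inv_mul_cancel₀ hμ2.ne', one_smul]
      exact dir4_not_smul hAB hc1 hc2 (code_ne h htl hdS hne) _ (by positivity) h5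
  · rw [k0_of_tl_ne htl]
    apply tendsto_const_nhds.congr'
    have := hzero ψ hψ hsupp (c e) (c' e) (c d) (c' d) ((draw_cont h he).mono hsub)
      ((draw_cont h hd).mono hsub) (by
        intro s hs t ht hst
        obtain ⟨h1, h2⟩ := hdisj s hs t ht hst
        rw [h1, h2, h.start e he, h.start d hd] at hst
        exact htl (h.Pinj e d he hd hst))
    filter_upwards [this] with ε hε
    exact hε.symm

theorem lim_br (h : Draw G S B P c c' code)
    (hlim : ∀ (ψ : ℝ → ℝ) (_ : Continuous ψ) (_ : ∀ x, 1 ≤ |x| → ψ x = 0)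
      (a a' b b' : ℝ → ℝ × ℝ)
      (_ : ∀ t ∈ Set.Icc (0 : ℝ) (1 / 2), HasDerivWithinAt a (a' t) (Set.Icc 0 (1 / 2)) t)
      (_ : ∀ t ∈ Set.Icc (0 : ℝ) (1 / 2), HasDerivWithinAt b (b' t) (Set.Icc 0 (1 / 2)) t)
      (_ : ContinuousOn a' (Set.Icc 0 (1 / 2))) (_ : ContinuousOn b' (Set.Icc 0 (1 / 2)))
      (_ : a 0 = b 0)
      (_ : ∀ s ∈ Set.Icc (0 : ℝ) (1 / 2), ∀ t ∈ Set.Icc (0 : ℝ) (1 / 2), a s = b t →
        s = 0 ∧ t = 0)
      (_ : a' 0 ≠ 0) (_ : b' 0 ≠ 0) (_ : ∀ μ : ℝ, 0 < μ → b' 0 ≠ μ • a' 0),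
      Tendsto (fun ε => Ihalf (scal ψ ε) a a' b b') (𝓝[>] 0) (𝓝 (kap ψ (a' 0) (b' 0))))
    (hzero : ∀ (ψ : ℝ → ℝ) (_ : Continuous ψ) (_ : ∀ x, 1 ≤ |x| → ψ x = 0)
      (a a' b b' : ℝ → ℝ × ℝ)
      (_ : ContinuousOn a (Set.Icc 0 (1 / 2))) (_ : ContinuousOn b (Set.Icc 0 (1 / 2)))
      (_ : ∀ s ∈ Set.Icc (0 : ℝ) (1 / 2), ∀ t ∈ Set.Icc (0 : ℝ) (1 / 2), a s ≠ b t),
      ∀ᶠ ε in 𝓝[>] (0 : ℝ), Ihalf (scal ψ ε) a a' b b' = 0)
    {ψ : ℝ → ℝ} (hψ : Continuous ψ) (hsupp : ∀ x, 1 ≤ |x| → ψ x = 0)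
    (heven : ∀ x, ψ (-x) = ψ x) {e d : D}
    (he : G.touch S e) (hdS : G.tl d ∈ S) (hdS' : G.hd d ∈ S) :
    Tendsto (fun ε => Ipsi (scal ψ ε) (c e) (c' e) (c d) (c' d)) (𝓝[>] 0)
      (𝓝 (br0 ψ G c' e d)) := by
  have hd : G.touch S d := Or.inl hdS
  have hd' := touch_inv hd
  have he' := touch_inv he
  by_cases h1 : e = d
  · subst h1
    rw [br0_self]
    have : (fun ε => Ipsi (scal ψ ε) (c e) (c' e) (c e) (c' e)) = fun _ => (0 : ℝ) := by
      funext ε
      exact Ipsi_self h (scal_cont hψ ε) (scal_even heven ε) he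
    rw [this]
    exact tendsto_const_nhds
  by_cases h2 : e = G.inv d
  · subst h2
    rw [br0_inv_self]
    have : (fun ε => Ipsi (scal ψ ε) (c (G.inv d)) (c' (G.inv d)) (c d) (c' d)) =
        fun _ => (0 : ℝ) := by
      funext ε
      exact Ipsi_inv_self h (scal_cont hψ ε) (scal_even heven ε) hd
    rw [this]
    exact tendsto_const_nhds
  have h3 : G.inv e ≠ d := by
    intro hh
    apply h2
    rw [← hh, G.inv_inv]
  have h4 : G.inv e ≠ G.inv d := by
    intro hh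
    apply h1
    rw [← G.inv_inv e, hh, G.inv_inv]
  have : (fun ε => Ipsi (scal ψ ε) (c e) (c' e) (c d) (c' d)) = fun ε =>
      Ihalf (scal ψ ε) (c e) (c' e) (c d) (c' d)
      - Ihalf (scal ψ ε) (c (G.inv e)) (c' (G.inv e)) (c d) (c' d)
      - Ihalf (scal ψ ε) (c e) (c' e) (c (G.inv d)) (c' (G.inv d))
      + Ihalf (scal ψ ε) (c (G.inv e)) (c' (G.inv e)) (c (G.inv d)) (c' (G.inv d)) := by
    funext ε
    exact Ipsi_dec h (scal_cont hψ ε) he hd
  rw [this]
  unfold br0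
  refine ((Tendsto.sub (Tendsto.sub ?_ ?_) ?_).add ?_)
  · exact lim_pair h hlim hzero hψ hsupp he hd hdS h1 h2
  · exact lim_pair h hlim hzero hψ hsupp he' hd hdS h3 h4
  · exact lim_pair h hlim hzero hψ hsupp he hd' hdS' h2 (by rwa [G.inv_inv])
  · exact lim_pair h hlim hzero hψ hsupp he' hd' hdS' h4 (by rwa [G.inv_inv])

/-! ### Algebra at a vertex -/

/-- the correction terms -/
noncomputable def mc (m1 : ℝ) : ℕ → ℝ
  | 0 => 0
  | 1 => m1
  | 2 => 1 / 2
  | _ => 1 / 2 + m1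

theorem kap_tab {ψ : ℝ → ℝ}
    (hk2 : ∀ A B, kap ψ (-A) (-B) = kap ψ A B) (hk3 : ∀ A B, kap ψ B A = - kap ψ A B)
    (hk4 : ∀ (A : ℝ × ℝ) (μ : ℝ), kap ψ A (μ • A) = 0)
    (hk5 : ∀ A B, 0 < det2 A B → kap ψ A B + kap ψ B (-A) = 1 / 2)
    {A B' : ℝ × ℝ} (hAB : 0 < det2 A B') {p q : ℕ} (hp : p < 4) (hq : q < 4) (hpq : p ≠ q) :
    kap ψ (dir4 A B' p) (dir4 A B' q) = 1 / 2 + mc (kap ψ B' (-A)) p - mc (kap ψ B' (-A)) q
      - (if q < p then 1 else 0) := by
  have h5 := hk5 A B' hAB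
  have a01 := hk3 A B'
  have a02 : kap ψ A (-A) = 0 := by
    have := hk4 A (-1)
    rwa [neg_smul, one_smul] at this
  have a20 : kap ψ (-A) A = 0 := by
    rw [hk3 A (-A), a02, neg_zero]
  have a13 : kap ψ B' (-B') = 0 := by
    have := hk4 B' (-1)
    rwa [neg_smul, one_smul] at this
  have a31 : kap ψ (-B') B' = 0 := by
    rw [hk3 B' (-B'), a13, neg_zero]
  have a30 : kap ψ (-B') A = kap ψ B' (-A) := by
    have := hk2 B' (-A)
    rwa [neg_neg] at this
  have a03 : kap ψ A (-B') = - kap ψ B' (-A) := by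
    rw [hk3 (-B') A, a30]
  have a21 : kap ψ (-A) B' = - kap ψ B' (-A) := hk3 B' (-A)
  have a23 := hk2 A B'
  have a32 := hk2 B' A
  interval_cases p <;> interval_cases q
  all_goals try exact absurd rfl hpq
  all_goals
    simp only [dir4, mc, a01, a02, a20, a13, a31, a30, a03, a21, a23, a32]
    norm_num
    try linarith

theorem vert (h : Draw G S B P c c' code) {ψ : ℝ → ℝ}
    (hk1 : ∀ (A B : ℝ × ℝ) (μ ν : ℝ) (_ : 0 < μ) (_ : 0 < ν),
      kap ψ (μ • A) (ν • B) = kap ψ A B)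
    (hk2 : ∀ A B, kap ψ (-A) (-B) = kap ψ A B) (hk3 : ∀ A B, kap ψ B A = - kap ψ A B)
    (hk4 : ∀ (A : ℝ × ℝ) (μ : ℝ), kap ψ A (μ • A) = 0)
    (hk5 : ∀ A B, 0 < det2 A B → kap ψ A B + kap ψ B (-A) = 1 / 2)
    {x : V} (hx : x ∈ S) : ∃ m : D → ℝ, ∀ e d : D, G.tl e = x → G.tl d = x →
      k0 ψ G c' e d = 1 / 2 + m e - m d - (if G.pos d < G.pos e then 1 else 0)
        - (open Classical in if d = e then (1 / 2 : ℝ) else 0) := by
  classical
  obtain ⟨A, B', hAB, hdir⟩ := h.dir x hx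
  refine ⟨fun e => mc (kap ψ B' (-A)) (code e), ?_⟩
  intro e d he hd
  by_cases hne : e = d
  · subst hne
    rw [k0_self, if_neg (lt_irrefl _), if_pos rfl]
    ring
  · obtain ⟨hc1, μ1, hμ1, hm1⟩ := hdir e he
    obtain ⟨hc2, μ2, hμ2, hm2⟩ := hdir d hd
    have hed : G.tl e = G.tl d := he.trans hd.symm
    have hdS : G.tl d ∈ S := hd ▸ hx
    have hk : k0 ψ G c' e d = kap ψ (dir4 A B' (code e)) (dir4 A B' (code d)) := by
      unfold k0
      rw [if_pos ⟨hed, hne⟩, hm1, hm2, hk1 _ _ _ _ hμ1 hμ2]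
    rw [hk, kap_tab hk2 hk3 hk4 hk5 hAB hc1 hc2 (code_ne h hed hdS hne), if_neg (Ne.symm hne)]
    have : (G.pos d < G.pos e) ↔ (code d < code e) := h.code_pos d e hed.symm hdS
    simp only [this]
    ring

open Classical in
/-- indicator of equality -/
noncomputable def ie {α : Type*} (a b : α) : ℝ := if a = b then 1 else 0

open Classical in
/-- indicator of a strict inequality of positions -/
noncomputable def il (G : Rib D V Λ) (a b : D) : ℝ := if G.pos a < G.pos b then 1 else 0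

theorem lk_real (o i o' i' : D) :
    ((lk (G.pos i, G.pos o) (G.pos i', G.pos o') : ℤ) : ℝ) =
      (il G o o' + ie o o') - (il G o i' + ie o i') - il G i o' + il G i i' := by
  classical
  have hle : ∀ a b : D, (if G.pos a ≤ G.pos b then (1 : ℝ) else 0) = il G a b + ie a b := by
    intro a b
    unfold il ie
    by_cases h1 : a = b
    · subst h1
      simp
    · have : G.pos a ≠ G.pos b := fun hh => h1 (G.pos_inj hh)
      have h2 : (G.pos a ≤ G.pos b) ↔ (G.pos a < G.pos b) := by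
        rw [le_iff_lt_or_eq]
        simp [this]
      rw [if_neg h1, add_zero]
      simp only [h2]
  unfold lk
  push_cast
  rw [hle, hle]
  rfl

theorem lk_br (h : Draw G S B P c c' code) {ψ : ℝ → ℝ}
    (hk1 : ∀ (A B : ℝ × ℝ) (μ ν : ℝ) (_ : 0 < μ) (_ : 0 < ν),
      kap ψ (μ • A) (ν • B) = kap ψ A B)
    (hk2 : ∀ A B, kap ψ (-A) (-B) = kap ψ A B) (hk3 : ∀ A B, kap ψ B A = - kap ψ A B)
    (hk4 : ∀ (A : ℝ × ℝ) (μ : ℝ), kap ψ A (μ • A) = 0)
    (hk5 : ∀ A B, 0 < det2 A B → kap ψ A B + kap ψ B (-A) = 1 / 2)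
    {o i o' i' : D} (hoi : G.tl i = G.tl o) (hoi' : G.tl i' = G.tl o') (hS : G.tl o ∈ S) :
    ((lk (G.pos i, G.pos o) (G.pos i', G.pos o') : ℤ) : ℝ) =
      - (k0 ψ G c' o' o - k0 ψ G c' o' i - k0 ψ G c' i' o + k0 ψ G c' i' i)
      + (1 / 2) * (ie o o' - ie i i') + (1 / 2) * (ie i o' - ie o i') := by
  classical
  rw [lk_real]
  by_cases hv : G.tl o' = G.tl o
  · obtain ⟨m, hm⟩ := vert h hk1 hk2 hk3 hk4 hk5 hS
    have hie : ∀ a b : D, (if a = b then (1 / 2 : ℝ) else 0) = (1 / 2) * ie a b := by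
      intro a b
      unfold ie
      by_cases hab : a = b
      · rw [if_pos hab, if_pos hab]
        ring
      · rw [if_neg hab, if_neg hab]
        ring
    have h1 := hm o' o hv rfl
    have h2 := hm o' i hv hoi
    have h3 := hm i' o (hoi'.trans hv) rfl
    have h4 := hm i' i (hoi'.trans hv) hoi
    rw [hie] at h1 h2 h3 h4
    rw [h1, h2, h3, h4]
    unfold il
    ring
  · have e1 : ∀ a b : D, G.tl a ≠ G.tl b → ie a b = 0 := by
      intro a b hab
      unfold ie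
      rw [if_neg (fun hh => hab (by rw [hh]))]
    have t1 : G.tl o ≠ G.tl o' := fun hh => hv hh.symm
    have t2 : G.tl i ≠ G.tl i' := by rw [hoi, hoi']; exact t1
    have t3 : G.tl i ≠ G.tl o' := by rw [hoi]; exact t1
    have t4 : G.tl o ≠ G.tl i' := by rw [hoi']; exact t1
    rw [e1 _ _ t1, e1 _ _ t2, e1 _ _ t3, e1 _ _ t4, k0_of_tl_ne t1.symm, k0_of_tl_ne t2.symm,
      k0_of_tl_ne t3.symm, k0_of_tl_ne t4.symm]
    have b1 : il G o o' = il G o i' := by
      unfold il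
      have := G.block o' i' o hoi'.symm t1
      simp only [this]
    have b2 : il G i o' = il G i i' := by
      unfold il
      have := G.block o' i' i hoi'.symm t3
      simp only [this]
    rw [b1, b2]
    ring


/-! ### Summation -/

/-- number of occurrences -/
noncomputable def cnt {α : Type*} (z : ℕ → α) (m : ℕ) (x : α) : ℝ :=
  ∑ r ∈ Finset.range m, ie (z r) x

theorem cnt_zero {α : Type*} (z : ℕ → α) (m : ℕ) (x : α) (h : ∀ r < m, z r ≠ x) :
    cnt z m x = 0 := by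
  unfold cnt
  apply Finset.sum_eq_zero
  intro r hr
  unfold ie
  rw [if_neg (h r (Finset.mem_range.1 hr))]

theorem ie_inv (a b : D) : ie (G.inv a) b = ie a (G.inv b) := by
  unfold ie
  have : (G.inv a = b) ↔ (a = G.inv b) := by
    constructor
    · rintro rfl
      rw [G.inv_inv]
    · rintro rfl
      rw [G.inv_inv]
  by_cases h : G.inv a = b
  · rw [if_pos h, if_pos (this.1 h)]
  · rw [if_neg h, if_neg (fun hh => h (this.2 hh))]

/-- the combinatorial core -/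
theorem core (h : Draw G S B P c c' code) {ψ : ℝ → ℝ}
    (hk1 : ∀ (A B : ℝ × ℝ) (μ ν : ℝ) (_ : 0 < μ) (_ : 0 < ν),
      kap ψ (μ • A) (ν • B) = kap ψ A B)
    (hk2 : ∀ A B, kap ψ (-A) (-B) = kap ψ A B) (hk3 : ∀ A B, kap ψ B A = - kap ψ A B)
    (hk4 : ∀ (A : ℝ × ℝ) (μ : ℝ), kap ψ A (μ • A) = 0)
    (hk5 : ∀ A B, 0 < det2 A B → kap ψ A B + kap ψ B (-A) = 1 / 2)
    (z w : ℕ → D) (m n : ℕ)
    (hz1 : ∀ r < m, G.tl (z r) ∈ S) (hz2 : ∀ r < m, G.hd (z r) ∈ S)
    (hz3 : ∀ r < m, G.hd (z (if r = 0 then m - 1 else r - 1)) = G.tl (z r))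
    (hw1 : G.tl (w 0) ∉ S) (hw2 : G.hd (w n) ∉ S)
    (hw3 : ∀ k < n, G.hd (w k) = G.tl (w (k + 1)))
    (hsum : ∑ k ∈ Finset.range (n + 1), ∑ r ∈ Finset.range m, br0 ψ G c' (w k) (z r) = 0) :
    ∑ k ∈ Finset.range n, ∑ r ∈ Finset.range m,
      ((lk (G.pos (G.inv (z (if r = 0 then m - 1 else r - 1))), G.pos (z r))
        (G.pos (G.inv (w k)), G.pos (w (k + 1))) : ℤ) : ℝ) = 0 := by
  classical
  set pr : ℕ → ℕ := fun r => if r = 0 then m - 1 else r - 1 with hpr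
  have hprm : ∀ r < m, pr r < m := by
    intro r hr
    simp only [hpr]
    split_ifs <;> omega
  -- the function A
  set A : D → ℝ := fun e => ∑ r ∈ Finset.range m,
    (k0 ψ G c' e (z r) - k0 ψ G c' e (G.inv (z (pr r)))) with hA
  have hA0 : ∀ e, G.tl e ∉ S → A e = 0 := by
    intro e he
    simp only [hA]
    apply Finset.sum_eq_zero
    intro r hr
    rw [Finset.mem_range] at hr
    rw [k0_of_tl_ne, k0_of_tl_ne, sub_zero]
    · intro hh
      apply he
      rw [hh]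
      exact hz2 (pr r) (hprm r hr)
    · intro hh
      apply he
      rw [hh]
      exact hz1 r hr
  have hAbr : ∀ e, ∑ r ∈ Finset.range m, br0 ψ G c' e (z r) = A e - A (G.inv e) := by
    intro e
    have h1 := sum_prev m (fun r => k0 ψ G c' e (G.inv (z r)))
    have h2 := sum_prev m (fun r => k0 ψ G c' (G.inv e) (G.inv (z r)))
    simp only [hA, br0, Finset.sum_sub_distrib, Finset.sum_add_distrib]
    rw [← h1, ← h2]
    ring
  have hsum2 : ∑ k ∈ Finset.range n, (A (w (k + 1)) - A (G.inv (w k))) = 0 := by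
    have e1 : ∑ k ∈ Finset.range (n + 1), (A (w k) - A (G.inv (w k))) = 0 := by
      rw [← hsum]
      exact Finset.sum_congr rfl fun k _ => (hAbr (w k)).symm
    rw [Finset.sum_sub_distrib] at e1
    rw [Finset.sum_range_succ' (fun k => A (w k)), Finset.sum_range_succ (fun k => A (G.inv (w k))),
      hA0 (w 0) hw1, hA0 (G.inv (w n)) hw2] at e1
    rw [Finset.sum_sub_distrib]
    linarith
  -- the telescoping sums
  have hN1 : ∑ k ∈ Finset.range n, (cnt z m (w (k + 1)) - cnt z m (w k)) = 0 := by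
    rw [Finset.sum_range_sub (fun k => cnt z m (w k)),
      cnt_zero z m (w n) (fun r hr hh => hw2 (by rw [← hh]; exact hz2 r hr)),
      cnt_zero z m (w 0) (fun r hr hh => hw1 (by rw [← hh]; exact hz1 r hr)), sub_zero]
  have hN2 : ∑ k ∈ Finset.range n, (cnt z m (G.inv (w (k + 1))) - cnt z m (G.inv (w k))) = 0 := by
    rw [Finset.sum_range_sub (fun k => cnt z m (G.inv (w k))),
      cnt_zero z m (G.inv (w n)) (fun r hr hh => hw2 (by
        have := hz1 r hr
        rw [hh] at this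
        exact this)),
      cnt_zero z m (G.inv (w 0)) (fun r hr hh => hw1 (by
        have := hz2 r hr
        rw [hh] at this
        unfold Rib.hd at this
        rwa [G.inv_inv] at this)), sub_zero]
  have hterm : ∀ k ∈ Finset.range n, ∑ r ∈ Finset.range m,
      ((lk (G.pos (G.inv (z (pr r))), G.pos (z r))
        (G.pos (G.inv (w k)), G.pos (w (k + 1))) : ℤ) : ℝ) =
      - (A (w (k + 1)) - A (G.inv (w k)))
      + (1 / 2) * (cnt z m (w (k + 1)) - cnt z m (w k))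
      + (1 / 2) * (cnt z m (G.inv (w (k + 1))) - cnt z m (G.inv (w k))) := by
    intro k hk
    rw [Finset.mem_range] at hk
    have c1 := sum_prev m (fun r => ie (z r) (w k))
    have c2 := sum_prev m (fun r => ie (z r) (G.inv (w (k + 1))))
    have e1 : ∀ r ∈ Finset.range m,
        ((lk (G.pos (G.inv (z (pr r))), G.pos (z r))
          (G.pos (G.inv (w k)), G.pos (w (k + 1))) : ℤ) : ℝ) =
        - ((k0 ψ G c' (w (k + 1)) (z r) - k0 ψ G c' (w (k + 1)) (G.inv (z (pr r)))) -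
          (k0 ψ G c' (G.inv (w k)) (z r) - k0 ψ G c' (G.inv (w k)) (G.inv (z (pr r)))))
        + (1 / 2) * (ie (z r) (w (k + 1)) - ie (z (pr r)) (w k))
        + (1 / 2) * (ie (z (pr r)) (G.inv (w (k + 1))) - ie (z r) (G.inv (w k))) := by
      intro r hr
      rw [Finset.mem_range] at hr
      rw [lk_br h hk1 hk2 hk3 hk4 hk5 (hz3 r hr) (hw3 k hk) (hz1 r hr)]
      rw [ie_inv (G := G) (z (pr r)) (G.inv (w k)), G.inv_inv, ie_inv (G := G) (z (pr r)) (w (k + 1))]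
      ring
    rw [Finset.sum_congr rfl e1]
    simp only [hA, cnt, Finset.sum_add_distrib, Finset.sum_neg_distrib, Finset.sum_sub_distrib,
      ← Finset.mul_sum]
    simp only [hpr]
    rw [c1, c2]
  rw [Finset.sum_congr rfl hterm]
  rw [Finset.sum_add_distrib, Finset.sum_add_distrib, Finset.sum_neg_distrib, ← Finset.mul_sum,
    ← Finset.mul_sum, hsum2, hN1, hN2]
  ring

end Darts

end I4h89

theorem intZero_of_draw
    (hstokes : ∀ {D : Type v} {V : Type u} {Λ : Type w} [LinearOrder Λ] (G : Rib D V Λ) (P : V → ℝ × ℝ)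
      (c c' : D → ℝ → ℝ × ℝ) (ζ v : List D) (y y₁ y₂ : V) (_ : Walk G y y ζ)
      (_ : Walk G y₁ y₂ v)
      (_ : ∀ d ∈ ζ ++ v, c d 0 = P (G.tl d) ∧ c d 1 = P (G.hd d))
      (_ : ∀ d ∈ ζ ++ v, ∀ t ∈ Set.Icc (0 : ℝ) 1,
        HasDerivWithinAt (c d) (c' d t) (Set.Icc 0 1) t)
      (_ : ∀ d ∈ ζ ++ v, ContinuousOn (c' d) (Set.Icc 0 1))
      (B : Set (ℝ × ℝ)) (_ : IsOpen B) (_ : Convex ℝ B)
      (_ : ∀ d ∈ ζ, ∀ t ∈ Set.Icc (0 : ℝ) 1, c d t ∈ B)
      (ψ ψ' : ℝ → ℝ) (_ : ∀ x, HasDerivAt ψ (ψ' x) x) (_ : Continuous ψ')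
      (_ : ∀ z ∈ B, ψ ((P y₁).1 - z.1) * ψ ((P y₁).2 - z.2) = 0)
      (_ : ∀ z ∈ B, ψ ((P y₂).1 - z.1) * ψ ((P y₂).2 - z.2) = 0),
      (v.map fun e => (ζ.map fun d => Ipsi ψ (c e) (c' e) (c d) (c' d)).sum).sum = 0)
    (hlim : ∀ (ψ : ℝ → ℝ) (_ : Continuous ψ) (_ : ∀ x, 1 ≤ |x| → ψ x = 0)
      (a a' b b' : ℝ → ℝ × ℝ)
      (_ : ∀ t ∈ Set.Icc (0 : ℝ) (1 / 2), HasDerivWithinAt a (a' t) (Set.Icc 0 (1 / 2)) t)
      (_ : ∀ t ∈ Set.Icc (0 : ℝ) (1 / 2), HasDerivWithinAt b (b' t) (Set.Icc 0 (1 / 2)) t)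
      (_ : ContinuousOn a' (Set.Icc 0 (1 / 2))) (_ : ContinuousOn b' (Set.Icc 0 (1 / 2)))
      (_ : a 0 = b 0)
      (_ : ∀ s ∈ Set.Icc (0 : ℝ) (1 / 2), ∀ t ∈ Set.Icc (0 : ℝ) (1 / 2), a s = b t →
        s = 0 ∧ t = 0)
      (_ : a' 0 ≠ 0) (_ : b' 0 ≠ 0) (_ : ∀ μ : ℝ, 0 < μ → b' 0 ≠ μ • a' 0),
      Tendsto (fun ε => Ihalf (scal ψ ε) a a' b b') (𝓝[>] 0) (𝓝 (kap ψ (a' 0) (b' 0))))
    (hzero : ∀ (ψ : ℝ → ℝ) (_ : Continuous ψ) (_ : ∀ x, 1 ≤ |x| → ψ x = 0)
      (a a' b b' : ℝ → ℝ × ℝ)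
      (_ : ContinuousOn a (Set.Icc 0 (1 / 2))) (_ : ContinuousOn b (Set.Icc 0 (1 / 2)))
      (_ : ∀ s ∈ Set.Icc (0 : ℝ) (1 / 2), ∀ t ∈ Set.Icc (0 : ℝ) (1 / 2), a s ≠ b t),
      ∀ᶠ ε in 𝓝[>] (0 : ℝ), Ihalf (scal ψ ε) a a' b b' = 0)
    (ψ ψ' : ℝ → ℝ) (hψ : ∀ x, HasDerivAt ψ (ψ' x) x) (hψ' : Continuous ψ')
    (hsupp : ∀ x, 1 ≤ |x| → ψ x = 0) (heven : ∀ x, ψ (-x) = ψ x)
    (hk1 : ∀ (A B : ℝ × ℝ) (μ ν : ℝ) (_ : 0 < μ) (_ : 0 < ν),
      kap ψ (μ • A) (ν • B) = kap ψ A B)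
    (hk2 : ∀ A B, kap ψ (-A) (-B) = kap ψ A B) (hk3 : ∀ A B, kap ψ B A = - kap ψ A B)
    (hk4 : ∀ (A : ℝ × ℝ) (μ : ℝ), kap ψ A (μ • A) = 0)
    (hk5 : ∀ A B, 0 < det2 A B → kap ψ A B + kap ψ B (-A) = 1 / 2)
    {D : Type v} {V : Type u} {Λ : Type w} [LinearOrder Λ] [Inhabited D] (G : Rib D V Λ)
    (S : Set V) (B : Set (ℝ × ℝ)) (P : V → ℝ × ℝ) (c c' : D → ℝ → ℝ × ℝ) (code : D → ℕ)
    (h : Draw G S B P c c' code) : IntZero G S := by
  classical
  intro ζ y hζ hζS v y₁ y₂ hv hy₁ hy₂ hvS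
  have hψc : Continuous ψ := continuous_iff_continuousAt.2 fun x => (hψ x).continuousAt
  -- short walks
  by_cases hn : v.length ≤ 1
  · unfold crossSum
    rw [Finset.Ico_eq_empty (by omega)]
    simp
  push Not at hn
  obtain ⟨n, hn'⟩ : ∃ n, v.length = n + 1 := ⟨v.length - 1, by omega⟩
  have hn1 : 1 ≤ n := by omega
  obtain ⟨m, hm⟩ : ∃ m, ζ.length = m := ⟨_, rfl⟩
  obtain ⟨z, hz⟩ : ∃ z : ℕ → D, z = fun r => ζ.getD r default := ⟨_, rfl⟩
  obtain ⟨w, hw⟩ : ∃ w : ℕ → D, w = fun k => v.getD k default := ⟨_, rfl⟩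
  have hz' : ∀ r, ζ.getD r default = z r := fun r => by rw [hz]
  have hw' : ∀ r, v.getD r default = w r := fun r => by rw [hw]
  have hzmem : ∀ r < m, z r ∈ ζ := by
    intro r hr
    rw [← hz', List.getD_eq_getElem _ _ (by rw [hm]; exact hr)]
    exact List.getElem_mem _
  have hz1 : ∀ r < m, G.tl (z r) ∈ S := fun r hr => hζS _ (hzmem r hr)
  have hz3 : ∀ r < m, G.hd (z (if r = 0 then m - 1 else r - 1)) = G.tl (z r) := by
    intro r hr
    by_cases h0 : r = 0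
    · subst h0
      rw [if_pos rfl]
      have h1 := I4h89.walk_last hζ (by omega)
      have h2 := I4h89.walk_first hζ (by omega)
      rw [hm, hz'] at h1
      rw [hz'] at h2
      exact h1.trans h2.symm
    · rw [if_neg h0]
      have := I4h89.walk_step hζ (r - 1) (by omega)
      rw [show r - 1 + 1 = r by omega, hz', hz'] at this
      exact this
  have hz2 : ∀ r < m, G.hd (z r) ∈ S := by
    intro r hr
    by_cases h0 : r + 1 < m
    · have := I4h89.walk_step hζ r (by omega)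
      rw [hz', hz'] at this
      rw [this]
      exact hz1 (r + 1) h0
    · have h1 : r = m - 1 := by omega
      have h2 := hz3 0 (by omega)
      rw [if_pos rfl, ← h1] at h2
      rw [h2]
      exact hz1 0 (by omega)
  have hw3 : ∀ k < n, G.hd (w k) = G.tl (w (k + 1)) := by
    intro k hk
    have := I4h89.walk_step hv k (by omega)
    rwa [hw', hw'] at this
  have hwF : G.tl (w 0) = y₁ := by
    have := I4h89.walk_first hv (by omega)
    rwa [hw'] at this
  have hwL : G.hd (w n) = y₂ := by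
    have := I4h89.walk_last hv (by omega)
    rwa [hn', Nat.add_sub_cancel, hw'] at this
  have hw1 : G.tl (w 0) ∉ S := by rw [hwF]; exact hy₁
  have hw2 : G.hd (w n) ∉ S := by rw [hwL]; exact hy₂
  have hwt : ∀ k < n + 1, G.touch S (w k) := by
    intro k hk
    by_cases h0 : k = 0
    · subst h0
      right
      rw [hw3 0 (by omega)]
      have := hvS 1 le_rfl (by omega)
      rwa [hw'] at this
    · left
      have := hvS k (by omega) (by omega)
      rwa [hw'] at this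
  have hζidx : ∀ d ∈ ζ, ∃ r < m, d = z r := by
    intro d hd
    obtain ⟨k, hk, rfl⟩ := List.mem_iff_getElem.1 hd
    exact ⟨k, by omega, by rw [← hz', List.getD_eq_getElem _ _ hk]⟩
  have htouch : ∀ d ∈ ζ ++ v, G.touch S d := by
    intro d hd
    rcases List.mem_append.1 hd with hd | hd
    · exact Or.inl (hζS d hd)
    · obtain ⟨k, hk, rfl⟩ := List.mem_iff_getElem.1 hd
      have := hwt k (by omega)
      rwa [← hw', List.getD_eq_getElem _ _ hk] at this
  -- the compact set and its hull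
  have hK : IsCompact (⋃ r ∈ Finset.range m, c (z r) '' Set.Icc (0 : ℝ) 1) := by
    apply (Finset.range m).isCompact_biUnion
    intro r hr
    exact isCompact_Icc.image_of_continuousOn
      (I4h89.draw_cont h (Or.inl (hz1 r (Finset.mem_range.1 hr))))
  have hKB : (⋃ r ∈ Finset.range m, c (z r) '' Set.Icc (0 : ℝ) 1) ⊆ B := by
    apply Set.iUnion₂_subset
    rintro r hr _ ⟨t, ht, rfl⟩
    rw [Finset.mem_range] at hr
    exact h.inB (z r) (hz1 r hr) (hz2 r hr) t ht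
  obtain ⟨H, hH1, hH2, hH3, hH4⟩ := I4h89.exists_hull hK h.Bopen h.Bconv hKB
  obtain ⟨δ, hδ, hth⟩ := hH1.exists_thickening_subset_open h.Bopen hH4
  have hvan : ∀ Q : ℝ × ℝ, Q ∉ B → ∀ ε : ℝ, 0 < ε → ε ≤ δ / 2 →
      ∀ x ∈ Metric.thickening (δ / 2) H, scal ψ ε (Q.1 - x.1) * scal ψ ε (Q.2 - x.2) = 0 := by
    intro Q hQ ε hε hεδ x hx
    by_contra hne
    have hlt : ∀ s : ℝ, scal ψ ε s ≠ 0 → |s| < ε := by
      intro s hs
      by_contra hcon
      push Not at hcon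
      apply hs
      unfold scal
      rw [hsupp, zero_div]
      rw [abs_div, abs_of_pos hε]
      rwa [one_le_div hε]
    have h1 := hlt _ (left_ne_zero_of_mul hne)
    have h2 := hlt _ (right_ne_zero_of_mul hne)
    apply hQ
    apply hth
    obtain ⟨p, hp, hpx⟩ := Metric.mem_thickening_iff.1 hx
    refine Metric.mem_thickening_iff.2 ⟨p, hp, ?_⟩
    have h3 : dist Q x < ε := by
      rw [Prod.dist_eq]
      exact max_lt (by rwa [Real.dist_eq]) (by rwa [Real.dist_eq])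
    calc dist Q p ≤ dist Q x + dist x p := dist_triangle _ _ _
      _ < δ := by linarith
  have hQ1 : P y₁ ∉ B := by
    rw [← hwF]
    exact h.outB (w 0) (hwt 0 (by omega)) hw1
  have hQ2 : P y₂ ∉ B := by
    rw [← hwL]
    exact h.outB (G.inv (w n)) (I4h89.touch_inv (hwt n (by omega))) hw2
  have hev : ∀ᶠ ε in 𝓝[>] (0 : ℝ), ∑ k ∈ Finset.range (n + 1), ∑ r ∈ Finset.range m,
      Ipsi (scal ψ ε) (c (w k)) (c' (w k)) (c (z r)) (c' (z r)) = 0 := by
    filter_upwards [Ioc_mem_nhdsGT (half_pos hδ)] with ε hε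
    have hε0 : 0 < ε := hε.1
    have := hstokes G P c c' ζ v y y₁ y₂ hζ hv (by
        intro d hd
        have ht := htouch d hd
        refine ⟨h.start d ht, ?_⟩
        have h1 := h.rev d ht 0 ⟨le_rfl, zero_le_one⟩
        rw [sub_zero] at h1
        rw [← h1]
        exact h.start (G.inv d) (I4h89.touch_inv ht))
      (fun d hd => h.deriv d (htouch d hd)) (fun d hd => h.cderiv d (htouch d hd))
      (Metric.thickening (δ / 2) H) Metric.isOpen_thickening (hH2.thickening _) (by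
        intro d hd t ht
        obtain ⟨r, hr, rfl⟩ := hζidx d hd
        apply Metric.self_subset_thickening (half_pos hδ) H
        apply hH3
        exact Set.mem_iUnion₂.2 ⟨r, Finset.mem_range.2 hr, t, ht, rfl⟩)
      (scal ψ ε) (fun x => ψ' (x / ε) * (1 / ε) / ε) (by
        intro x
        have h1 : HasDerivAt (fun x : ℝ => x / ε) (1 / ε) x := (hasDerivAt_id x).div_const ε
        exact ((hψ (x / ε)).comp x h1).div_const ε)
      (((hψ'.comp (continuous_id.div_const ε)).mul continuous_const).div_const ε)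
      (hvan _ hQ1 ε hε0 hε.2) (hvan _ hQ2 ε hε0 hε.2)
    rw [I4h89.lsum_eq, hn'] at this
    rw [← this]
    apply Finset.sum_congr rfl
    intro k _
    rw [I4h89.lsum_eq, hm, hw']
    apply Finset.sum_congr rfl
    intro r _
    rw [hz']
  have hlimit : Tendsto (fun ε => ∑ k ∈ Finset.range (n + 1), ∑ r ∈ Finset.range m,
      Ipsi (scal ψ ε) (c (w k)) (c' (w k)) (c (z r)) (c' (z r))) (𝓝[>] 0)
      (𝓝 (∑ k ∈ Finset.range (n + 1), ∑ r ∈ Finset.range m,
        I4h89.br0 ψ G c' (w k) (z r))) := by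
    apply tendsto_finsetSum
    intro k hk
    apply tendsto_finsetSum
    intro r hr
    rw [Finset.mem_range] at hk hr
    exact I4h89.lim_br h hlim hzero hψc hsupp heven (hwt k hk) (hz1 r hr) (hz2 r hr)
  have hsum : ∑ k ∈ Finset.range (n + 1), ∑ r ∈ Finset.range m,
      I4h89.br0 ψ G c' (w k) (z r) = 0 := by
    refine tendsto_nhds_unique hlimit ?_
    apply tendsto_const_nhds.congr'
    filter_upwards [hev] with ε hε
    exact hε.symm
  have hcore := I4h89.core h hk1 hk2 hk3 hk4 hk5 z w m n hz1 hz2 hz3 hw1 hw2 hw3 hsum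
  have hcs : crossSum G ζ v = ∑ k ∈ Finset.range n, ∑ r ∈ Finset.range m,
      lk (G.pos (G.inv (z (if r = 0 then m - 1 else r - 1))), G.pos (z r))
        (G.pos (G.inv (w k)), G.pos (w (k + 1))) := by
    unfold crossSum
    rw [Finset.sum_Ico_eq_sum_range, hn', Nat.add_sub_cancel]
    apply Finset.sum_congr rfl
    intro k _
    rw [hm]
    apply Finset.sum_congr rfl
    intro r _
    unfold pass Rib.ipos
    rw [if_neg (by omega : ¬ 1 + k = 0), hm, hz', hz', hw', hw',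
      show 1 + k - 1 = k by omega, show 1 + k = k + 1 by omega]
  rw [hcs]
  exact_mod_cast hcore

end Pool.Agent.TH317.CC
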